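import Pool.Agent.N162.HN.Stm

set_option autoImplicit false

open MvPolynomial
open Pool.Agent.N162.CV (MonicY)

namespace Pool.Agent.N954.HN

/-- A linear relation between the conjugates gives a linear relation over the ground field. -/
theorem span_of_conj (L K Ω : Type) [Field L] [CharZero L] [Field K] [Algebra L K]
    [FiniteDimensional L K] [Field Ω] [Algebra L Ω] [IsAlgClosed Ω] {ι : Type} (T : Finset ι)
    (m : ι → K) (x : K) (b : ι → Ω)
    (h : ∀ σ : K →ₐ[L] Ω, σ x = ∑ e ∈ T, b e * σ (m e)) :
    ∃ c : ι → L, ∑ e ∈ T, c e • m e = x := by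
  classical
  rw [← Submodule.mem_span_image_finset_iff_exists_fun']
  by_contra hx
  obtain ⟨f, hf, hf'⟩ := Submodule.exists_dual_map_eq_bot_of_notMem hx inferInstance
  haveI : Algebra.IsSeparable L K := inferInstance
  set β : K := ((Algebra.traceForm L K).toDual (traceForm_nondegenerate L K)).symm f with hβ
  have hf2 : ∀ y : K, f y = Algebra.trace L K (β * y) := by
    intro y
    have := LinearMap.BilinForm.apply_toDual_symm_apply (B := Algebra.traceForm L K)
      (hB := traceForm_nondegenerate L K) f y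
    rw [← this, Algebra.traceForm_apply]
  have h0 : ∀ e ∈ T, f (m e) = 0 := by
    intro e he
    have h3 := Submodule.mem_map_of_mem (f := f)
      (Submodule.subset_span (R := L) (s := m '' (T : Set ι)) ⟨e, he, rfl⟩)
    exact (Submodule.mem_bot L).mp (hf' ▸ h3)
  have h1 : ∀ e ∈ T, ∑ σ : K →ₐ[L] Ω, σ (β * m e) = 0 := by
    intro e he
    rw [← trace_eq_sum_embeddings (K := L) (L := K) Ω, ← hf2, h0 e he, map_zero]
  have h2 : ∑ σ : K →ₐ[L] Ω, σ (β * x) = 0 := by
    have : ∀ σ : K →ₐ[L] Ω, σ (β * x) = ∑ e ∈ T, b e * σ (β * m e) := by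
      intro σ
      rw [map_mul, h σ, Finset.mul_sum]
      refine Finset.sum_congr rfl fun e _ => ?_
      rw [map_mul]; ring
    rw [Finset.sum_congr rfl fun σ _ => this σ, Finset.sum_comm]
    refine Finset.sum_eq_zero fun e he => ?_
    rw [← Finset.mul_sum, h1 e he, mul_zero]
  rw [← trace_eq_sum_embeddings (K := L) (L := K) Ω, ← hf2] at h2
  exact hf ((map_eq_zero (algebraMap L Ω)).mp h2)

theorem des_ : Pool.Agent.N162.HN.StDES := by
  classical
  intro L K Ω _ _ _ _ _ _ _ _ u w A hA hσ
  set D := A.totalDegree with hD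
  set eD : Fin 2 →₀ ℕ := Finsupp.single 1 D with heD
  have hA' : A.coeff eD ≠ 0 := hA
  have hmem : eD ∈ A.support := mem_support_iff.mpr hA'
  obtain ⟨c, hc⟩ := span_of_conj L K Ω (A.support.erase eD) (fun e => u ^ e 0 * w ^ e 1) (w ^ D)
    (fun e => -A.coeff e / A.coeff eD) (by
      intro σ
      have h := hσ σ
      rw [eval_eq', ← Finset.add_sum_erase _ _ hmem] at h
      simp only [Fin.prod_univ_two, Matrix.cons_val_zero, Matrix.cons_val_one] at h
      have e0 : eD 0 = 0 := by simp [heD]
      have e1 : eD 1 = D := by simp [heD]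
      rw [e0, e1, pow_zero, one_mul] at h
      rw [map_pow]
      have h3 : A.coeff eD * σ w ^ D =
          A.coeff eD * ∑ e ∈ A.support.erase eD, -A.coeff e / A.coeff eD * σ (u ^ e 0 * w ^ e 1) := by
        rw [eq_neg_of_add_eq_zero_left h, Finset.mul_sum, ← Finset.sum_neg_distrib]
        refine Finset.sum_congr rfl fun e _ => ?_
        rw [map_mul, map_pow, map_pow]
        field_simp
      exact mul_left_cancel₀ hA' h3)
  set A₀ : MvPolynomial (Fin 2) L := monomial eD 1 - ∑ e ∈ A.support.erase eD, monomial e (c e)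
    with hA₀
  have hcoef : A₀.coeff eD = 1 := by
    rw [hA₀, coeff_sub, coeff_monomial, if_pos rfl, coeff_sum, Finset.sum_eq_zero, sub_zero]
    intro e he
    rw [coeff_monomial, if_neg (Finset.ne_of_mem_erase he)]
  have hle : A₀.totalDegree ≤ D := by
    rw [hA₀]
    refine (totalDegree_sub _ _).trans (max_le ?_ ?_)
    · refine (totalDegree_monomial_le _ _).trans ?_
      rw [heD]
      simp [Finsupp.sum_single_index]
    · refine totalDegree_finsetSum_le fun e he => ?_
      refine (totalDegree_monomial_le _ _).trans ?_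
      exact le_totalDegree (Finset.mem_of_mem_erase he)
  have hge : D ≤ A₀.totalDegree := by
    have := le_totalDegree (p := A₀) (s := eD) (by rw [mem_support_iff, hcoef]; exact one_ne_zero)
    refine le_trans ?_ this
    rw [heD]
    simp [Finsupp.sum_single_index]
  have hdeg : A₀.totalDegree = D := le_antisymm hle hge
  refine ⟨A₀, ?_, hdeg, ?_⟩
  · unfold MonicY
    rw [hdeg, ← heD, hcoef]
    exact one_ne_zero
  · rw [hA₀, map_sub, map_sum, aeval_monomial, map_one, one_mul, sub_eq_zero]
    rw [Finsupp.prod_fintype _ _ (fun i => pow_zero _)]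
    simp only [Fin.prod_univ_two, Matrix.cons_val_zero, Matrix.cons_val_one]
    have e0 : eD 0 = 0 := by simp [heD]
    have e1 : eD 1 = D := by simp [heD]
    rw [e0, e1, pow_zero, one_mul, ← hc]
    refine Finset.sum_congr rfl fun e _ => ?_
    rw [aeval_monomial, Finsupp.prod_fintype _ _ (fun i => pow_zero _), Algebra.smul_def]
    simp only [Fin.prod_univ_two, Matrix.cons_val_zero, Matrix.cons_val_one]

end Pool.Agent.N954.HN
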